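import Pool.Agent.helper55.FPZ.Spec

/-!
# Project FPZ, row DD: diagonal matrices
-/

set_option autoImplicit false

namespace Pool.Agent.FPZ

open Matrix Polynomial Pool.Agent.PL Pool.Agent.X4

theorem DD : DD_stmt := by
  intro F _ N m d t
  funext I
  unfold der
  rw [Finset.sum_mul]
  refine Finset.sum_congr rfl fun k _ => ?_
  rw [Finset.sum_eq_single (I k)]
  · rw [diagonal_apply_eq, Function.update_eq_self]
  · intro j _ hj
    rw [diagonal_apply_ne d hj.symm, zero_mul]
  · intro h
    exact absurd (Finset.mem_univ _) h

end Pool.Agent.FPZ
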