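import Pool.Agent.helper55.FPZ.SpecZ
import Pool.Agent.helper42.FPZ.ND1

/-!
# Project FPZ, row KA: a derivation of a transform of a tensor with constant coordinates
-/

set_option autoImplicit false

namespace Pool.Agent.FPZ

open Matrix Polynomial Pool.Agent.PL Pool.Agent.X4

/-- `KA` -/
theorem KA : KA_stmt := by
  intro K _ _ N m δ c c' hc y hy
  funext I
  have h1 : der ((c.map fun x => δ x) * c') m (tp c m *ᵥ y) I =
      ∑ k : Fin m, ∑ j, ((c.map fun x => δ x) * c') (I k) j *
        ∑ J, (∏ i, c (Function.update I k j i) (J i)) * y J := rfl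
  have h2 : (tp c m *ᵥ y) I = ∑ J, (∏ i, c (I i) (J i)) * y J := rfl
  have h3 : ∀ J : Fin m → Fin N, δ ((∏ i, c (I i) (J i)) * y J) =
      ∑ k : Fin m, (∏ i ∈ Finset.univ.erase k, c (I i) (J i)) *
        (c.map fun x => δ x) (I k) (J k) * y J := by
    intro J
    rw [Derivation.leibniz, hy J, smul_zero, zero_add, ND1_deriv_prod, smul_eq_mul,
      Finset.mul_sum]
    refine Finset.sum_congr rfl fun k _ => ?_
    rw [Matrix.map_apply]
    ring
  rw [h1, h2, map_sum, Finset.sum_congr rfl fun J _ => h3 J, Finset.sum_comm]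
  refine Finset.sum_congr rfl fun k _ => ?_
  rw [ND1_rhs c c' (c.map fun x => δ x) hc]

end Pool.Agent.FPZ
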